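import Mathlib

open CategoryTheory

universe u

namespace Pool.Agent.Results.MP_f6eb76_al.HomogeneousEmbedding

/-! ### Definitions -/

/-- A representation over the commutative ring `K`: a group `G` and a right module `V` over the
group algebra of `G`, that is, a `K`-module with a `K`-linear right action of `G`. -/
structure Rep (K : Type u) [CommRing K] where
  V : Type u
  G : Type u
  [instAddCommGroup : AddCommGroup V]
  [instModule : Module K V]
  [instGroup : Group G]
  act : V → G → V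
  act_add : ∀ v w g, act (v + w) g = act v g + act w g
  act_smul : ∀ (k : K) v g, act (k • v) g = k • act v g
  act_one : ∀ v, act v 1 = v
  act_mul : ∀ v g h, act v (g * h) = act (act v g) h

attribute [instance] Rep.instAddCommGroup Rep.instModule Rep.instGroup

variable {K : Type u} [CommRing K]

/-- An embedding of representations: an injective `K`-linear map and an injective group
homomorphism that are compatible with the actions. -/
structure Rep.Embedding (R S : Rep K) where
  α : R.V →ₗ[K] S.V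
  β : R.G →* S.G
  α_inj : Function.Injective α
  β_inj : Function.Injective β
  compat : ∀ v g, α (R.act v g) = S.act (α v) (β g)

/-- A subrepresentation: a subgroup `H` and a `K`-submodule `W` stable under `H`. -/
structure Subrep (R : Rep K) where
  W : Submodule K R.V
  H : Subgroup R.G
  stable : ∀ w ∈ W, ∀ h ∈ H, R.act w h ∈ W

/-- The subrepresentation is finitely generated: `H` is generated by a finite set, and `W` is
generated as a module over the group algebra of `H` by a finite set `T`, that is, `W` is the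
`K`-span of the elements `t h` with `t` in `T` and `h` in `H`. -/
def Subrep.FG {R : Rep K} (S : Subrep R) : Prop :=
  (∃ F : Finset R.G, Subgroup.closure (F : Set R.G) = S.H) ∧
    ∃ T : Finset R.V, Submodule.span K {v | ∃ t ∈ T, ∃ h ∈ S.H, v = R.act t h} = S.W

/-- The maps `α` and `β` restrict to an isomorphism from the subrepresentation `S` onto the
subrepresentation `T` (their values outside `S` are irrelevant). -/
structure IsIso {R : Rep K} (S T : Subrep R) (α : R.V → R.V) (β : R.G → R.G) : Prop where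
  bij_left : Set.BijOn α S.W T.W
  bij_right : Set.BijOn β S.H T.H
  map_add : ∀ v ∈ S.W, ∀ w ∈ S.W, α (v + w) = α v + α w
  map_smul : ∀ (k : K), ∀ v ∈ S.W, α (k • v) = k • α v
  map_mul : ∀ g ∈ S.H, ∀ h ∈ S.H, β (g * h) = β g * β h
  map_act : ∀ v ∈ S.W, ∀ h ∈ S.H, α (R.act v h) = R.act (α v) (β h)

/-- An automorphism of a representation. -/
structure Rep.Aut (R : Rep K) where
  α : R.V ≃ₗ[K] R.V
  β : R.G ≃* R.G
  compat : ∀ v g, α (R.act v g) = R.act (α v) (β g)

/-- A representation is homogeneous if every isomorphism between finitely generated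
subrepresentations is the restriction of an automorphism. -/
def Rep.Homogeneous (R : Rep K) : Prop :=
  ∀ S T : Subrep R, S.FG → T.FG → ∀ (α : R.V → R.V) (β : R.G → R.G), IsIso S T α β →
    ∃ ψ : R.Aut, (∀ w ∈ S.W, ψ.α w = α w) ∧ ∀ h ∈ S.H, ψ.β h = β h

/-! ### Injective modules and free actions -/

lemma exists_injective (K : Type u) [CommRing K] (V : Type u) [AddCommGroup V] [Module K V] :
    ∃ (Q : Type u) (_ : AddCommGroup Q) (_ : Module K Q) (i : V →ₗ[K] Q),
      Module.Injective K Q ∧ Function.Injective i := by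
  let M : ModuleCat.{u} K := ModuleCat.of K V
  let J := Injective.under M
  let ι : M ⟶ J := Injective.ι M
  refine ⟨J, inferInstance, inferInstance, ι.hom, ?_, ?_⟩
  · have : Injective (ModuleCat.of K J) := inferInstanceAs (Injective J)
    exact Module.injective_module_of_injective_object K J
  · exact (ModuleCat.mono_iff_injective ι).mp inferInstance

/-- free action -/
def Free {H A : Type u} [Group H] (σ : H →* Equiv.Perm A) : Prop :=
  ∀ h a, σ h a = a → h = 1

lemma Free.decomp {H A : Type u} [Group H] {σ : H →* Equiv.Perm A} (hσ : Free σ) :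
    ∃ (T : Type u) (e : A ≃ H × T), ∀ h a, e (σ h a) = (h * (e a).1, (e a).2) := by
  let r : Setoid A :=
    { r := fun a b => ∃ h, σ h a = b
      iseqv := ⟨fun a => ⟨1, by simp⟩, fun {a b} ⟨h, hh⟩ => ⟨h⁻¹, by rw [← hh, ← Equiv.Perm.mul_apply, ← map_mul]; simp⟩,
        fun {a b c} ⟨h, hh⟩ ⟨k, hk⟩ => ⟨k * h, by rw [map_mul, Equiv.Perm.mul_apply, hh, hk]⟩⟩ }
  have hex : ∀ a : A, ∃ h, σ h (Quotient.mk r a).out = a := fun a => Quotient.mk_out a
  choose hh hhs using hex
  have huniq : ∀ (a : A) (h : H), σ h (Quotient.mk r a).out = a → h = hh a := by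
    intro a h hha
    have h1 : σ ((hh a)⁻¹ * h) (Quotient.mk r a).out = (Quotient.mk r a).out := by
      rw [map_mul, Equiv.Perm.mul_apply, hha, map_inv, Equiv.Perm.inv_eq_iff_eq, hhs a]
    have h2 := hσ _ _ h1
    exact (inv_mul_eq_one.mp h2).symm
  have hcls : ∀ (h : H) (a : A), Quotient.mk r (σ h a) = Quotient.mk r a :=
    fun h a => (Quotient.sound ⟨h, rfl⟩ : Quotient.mk r a = Quotient.mk r (σ h a)).symm
  refine ⟨Quotient r, ⟨fun a => (hh a, Quotient.mk r a), fun x => σ x.1 x.2.out, ?_, ?_⟩, ?_⟩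
  · intro a
    exact hhs a
  · rintro ⟨h, t⟩
    have e1 : Quotient.mk r (σ h t.out) = t := by rw [hcls, Quotient.out_eq]
    refine Prod.ext ?_ e1
    apply (huniq _ _ _).symm
    simp only
    rw [e1]
  · intro h a
    refine Prod.ext ?_ (hcls h a)
    change hh (σ h a) = h * hh a
    apply (huniq _ _ _).symm
    rw [hcls, map_mul, Equiv.Perm.mul_apply, hhs a]

open Cardinal in
lemma card_orbits {H A T : Type u} [Group H] (e : A ≃ H × T) {κ : Cardinal.{u}} (hκ : ℵ₀ ≤ κ)
    (hA : #A = κ) (hH : #H < κ) : #T = κ := by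
  have h1 : #A = #H * #T := by rw [Cardinal.mk_congr e, Cardinal.mk_prod]; simp
  apply le_antisymm
  · rw [← hA, h1]
    exact Cardinal.le_mul_left (Cardinal.mk_ne_zero _)
  · by_contra hc
    rw [not_le] at hc
    have := Cardinal.mul_lt_of_lt hκ hH hc
    rw [← h1, hA] at this
    exact lt_irrefl _ this

open Cardinal in
lemma Free.equiv {H A B : Type u} [Group H] {σ : H →* Equiv.Perm A} {τ : H →* Equiv.Perm B}
    (hσ : Free σ) (hτ : Free τ) {κ : Cardinal.{u}} (hκ : ℵ₀ ≤ κ)
    (hA : #A = κ) (hB : #B = κ) (hH : #H < κ) :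
    ∃ e : A ≃ B, ∀ h a, e (σ h a) = τ h (e a) := by
  obtain ⟨T, e, he⟩ := hσ.decomp
  obtain ⟨T', e', he'⟩ := hτ.decomp
  have h1 := card_orbits e hκ hA hH
  have h2 := card_orbits e' hκ hB hH
  obtain ⟨f⟩ := Cardinal.eq.mp (h1.trans h2.symm)
  refine ⟨e.trans ((Equiv.prodCongr (Equiv.refl H) f).trans e'.symm), fun h a => ?_⟩
  simp only [Equiv.trans_apply, Equiv.prodCongr_apply, Equiv.coe_refl]
  rw [Equiv.symm_apply_eq, he', Equiv.apply_symm_apply, he]
  rfl

section Ext

variable {Q : Type u} [AddCommGroup Q] [Module K Q]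

/-- Extension of equivariant maps into the coinduced module of a free action. -/
lemma extend (hQ : Module.Injective K Q) {H A B : Type u} [Group H] (σ : H →* Equiv.Perm A)
    {τ : H →* Equiv.Perm B} (hτ : Free τ) (W : Submodule K (A → Q))
    (hW : ∀ w ∈ W, ∀ h, (fun a => w (σ h a)) ∈ W) (φ : W →ₗ[K] (B → Q))
    (hφ : ∀ (w : W) (h : H), φ ⟨fun a => w.1 (σ h a), hW w w.2 h⟩ = fun b => φ w (τ h b)) :
    ∃ Φ : (A → Q) →ₗ[K] (B → Q), (∀ f h, Φ (fun a => f (σ h a)) = fun b => Φ f (τ h b)) ∧
      ∀ w : W, Φ w.1 = φ w := by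
  obtain ⟨T, e, he⟩ := hτ.decomp
  have hψ : ∀ t : T, ∃ ψ : (A → Q) →ₗ[K] Q, ∀ w : W, ψ w.1 = φ w (e.symm (1, t)) := by
    intro t
    obtain ⟨ψ, hψ⟩ := Module.Injective.extension_property K Q W (A → Q) W.subtype
      (Submodule.injective_subtype W) ((LinearMap.proj (e.symm (1, t))).comp φ)
    exact ⟨ψ, fun w => LinearMap.congr_fun hψ w⟩
  choose ψ hψ using hψ
  let Φ : (A → Q) →ₗ[K] (B → Q) :=
    { toFun := fun f b => ψ (e b).2 (fun a => f (σ (e b).1 a))
      map_add' := fun f g => by
        funext b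
        exact (ψ (e b).2).map_add (fun a => f (σ (e b).1 a)) (fun a => g (σ (e b).1 a))
      map_smul' := fun k f => by
        funext b
        exact (ψ (e b).2).map_smul k (fun a => f (σ (e b).1 a)) }
  refine ⟨Φ, ?_, ?_⟩
  · intro f h
    funext b
    change ψ (e b).2 (fun a => f (σ h (σ (e b).1 a))) =
      ψ (e (τ h b)).2 (fun a => f (σ (e (τ h b)).1 a))
    rw [he]
    simp only [map_mul, Equiv.Perm.mul_apply]
  · intro w
    funext b
    change ψ (e b).2 (fun a => w.1 (σ (e b).1 a)) = φ w b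
    have h1 := hψ (e b).2 ⟨fun a => w.1 (σ (e b).1 a), hW w w.2 _⟩
    simp only at h1
    rw [h1, hφ]
    have h2 : τ (e b).1 (e.symm (1, (e b).2)) = b := by
      apply e.injective
      rw [he, Equiv.apply_symm_apply, mul_one]
    change φ w (τ (e b).1 (e.symm (1, (e b).2))) = φ w b
    rw [h2]


/-- The swapping trick: an isomorphism between submodules of two coinduced modules extends to an
isomorphism of their sum. -/
lemma swap (hQ : Module.Injective K Q) {H A B : Type u} [Group H] {σ : H →* Equiv.Perm A}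
    (hσ : Free σ) {τ : H →* Equiv.Perm B} (hτ : Free τ) (W : Submodule K (A → Q))
    (hW : ∀ w ∈ W, ∀ h, (fun a => w (σ h a)) ∈ W) (φ : W →ₗ[K] (B → Q))
    (hinj : Function.Injective φ)
    (hφ : ∀ (w : W) (h : H), φ ⟨fun a => w.1 (σ h a), hW w w.2 h⟩ = fun b => φ w (τ h b)) :
    ∃ θ : ((A → Q) × (B → Q)) ≃ₗ[K] ((B → Q) × (A → Q)),
      (∀ f g h, θ (fun a => f (σ h a), fun b => g (τ h b)) =
        (fun b => (θ (f, g)).1 (τ h b), fun a => (θ (f, g)).2 (σ h a))) ∧
      ∀ w : W, θ (w.1, 0) = (φ w, 0) := by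
  obtain ⟨a, ha1, ha2⟩ := extend hQ σ hτ W hW φ hφ
  let φe : W ≃ₗ[K] LinearMap.range φ := LinearEquiv.ofInjective φ hinj
  have hW' : ∀ w ∈ LinearMap.range φ, ∀ h, (fun b => w (τ h b)) ∈ LinearMap.range φ := by
    intro u hu h
    obtain ⟨w, rfl⟩ := LinearMap.mem_range.mp hu
    rw [← hφ w h]
    exact LinearMap.mem_range_self φ _
  let ψ : LinearMap.range φ →ₗ[K] (A → Q) := W.subtype.comp φe.symm.toLinearMap
  have hψw : ∀ (w : W) (hm : φ w ∈ LinearMap.range φ), ψ ⟨φ w, hm⟩ = w.1 := by
    intro w hm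
    change (φe.symm ⟨φ w, hm⟩).1 = w.1
    have : (⟨φ w, hm⟩ : LinearMap.range φ) = φe w := rfl
    rw [this, LinearEquiv.symm_apply_apply]
  have hψ : ∀ (w : LinearMap.range φ) (h : H),
      ψ ⟨fun b => w.1 (τ h b), hW' w w.2 h⟩ = fun b => ψ w (σ h b) := by
    rintro ⟨u, hu⟩ h
    obtain ⟨w, rfl⟩ := LinearMap.mem_range.mp hu
    have h1 : (⟨fun b => φ w (τ h b), hW' (φ w) hu h⟩ : LinearMap.range φ) =
        ⟨φ ⟨fun a => w.1 (σ h a), hW w w.2 h⟩, LinearMap.mem_range_self φ _⟩ :=
      Subtype.ext (hφ w h).symm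
    have h2 := hψw w hu
    have h3 := hψw ⟨fun a => w.1 (σ h a), hW w w.2 h⟩ (LinearMap.mem_range_self φ _)
    rw [← h1] at h3
    rw [h2]
    exact h3
  obtain ⟨b, hb1, hb2⟩ := extend hQ τ hσ (LinearMap.range φ) hW' ψ hψ
  refine ⟨LinearEquiv.ofLinearMap
    (LinearMap.prod (LinearMap.snd K _ _ + a.comp (LinearMap.fst K _ _))
      (LinearMap.fst K _ _ - b.comp (LinearMap.snd K _ _ + a.comp (LinearMap.fst K _ _))))
    (LinearMap.prod (LinearMap.snd K _ _ + b.comp (LinearMap.fst K _ _))
      (LinearMap.fst K _ _ - a.comp (LinearMap.snd K _ _ + b.comp (LinearMap.fst K _ _))))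
    ?_ ?_, ?_, ?_⟩
  · apply LinearMap.ext
    rintro ⟨x, y⟩
    simp
  · apply LinearMap.ext
    rintro ⟨x, y⟩
    simp
  · intro f g h
    refine Prod.ext ?_ ?_
    · change (fun b => g (τ h b)) + a (fun a => f (σ h a)) = _
      rw [ha1]
      rfl
    · change (fun a => f (σ h a)) - b ((fun b => g (τ h b)) + a (fun a => f (σ h a))) = _
      rw [ha1, map_add, hb1, hb1]
      funext x
      change f (σ h x) - (b g (σ h x) + b (a f) (σ h x)) = f (σ h x) - b (g + a f) (σ h x)
      rw [map_add]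
      rfl
  · intro w
    refine Prod.ext ?_ ?_
    · change (0 : B → Q) + a w.1 = φ w
      rw [ha2, zero_add]
    · change w.1 - b ((0 : B → Q) + a w.1) = 0
      rw [ha2, zero_add]
      have h1 := hb2 ⟨φ w, LinearMap.mem_range_self φ w⟩
      have h2 := hψw w (LinearMap.mem_range_self φ w)
      rw [h2] at h1
      have h3 : b (φ w) = w.1 := h1
      rw [h3, sub_self]

end Ext


/-- every partial isomorphism becomes inner -/
def Rep.Embedding.Good {R S : Rep K} (e : R.Embedding S) : Prop :=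
  ∀ (W : Submodule K R.V) (H : Subgroup R.G) (hst : ∀ w ∈ W, ∀ h ∈ H, R.act w h ∈ W)
    (α : W →ₗ[K] R.V) (β : H →* R.G), Function.Injective α → Function.Injective β →
    (∀ (w : W) (h : H), α ⟨R.act w h, hst w w.2 h h.2⟩ = R.act (α w) (β h)) →
    ∃ g : S.G, (∀ w : W, e.α (α w) = S.act (e.α w) g) ∧ (∀ h : H, e.β (β h) = g⁻¹ * e.β h * g)

section Step

variable {G I : Type u} [Group G]

/-- left multiplication on the first coordinate -/
def lmX (G I : Type u) [Group G] : G →* Equiv.Perm (G × I) where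
  toFun g := Equiv.prodCongr (Equiv.mulLeft g) (Equiv.refl I)
  map_one' := by
    apply Equiv.ext; rintro ⟨x, i⟩; simp
  map_mul' g h := by
    apply Equiv.ext; rintro ⟨x, i⟩; simp [mul_assoc]

/-- left multiplication -/
def lm (G : Type u) [Group G] : G →* Equiv.Perm G where
  toFun g := Equiv.mulLeft g
  map_one' := by
    apply Equiv.ext; intro x; simp
  map_mul' g h := by
    apply Equiv.ext; intro x; simp

lemma lm_apply (g x : G) : lm G g x = g * x := rfl

lemma lmX_apply (g : G) (y : G × I) : lmX G I g y = (g * y.1, y.2) := rfl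

/-- the sum of two actions -/
def sumHom {H A B : Type u} [Group H] (σ : H →* Equiv.Perm A) (τ : H →* Equiv.Perm B) :
    H →* Equiv.Perm (A ⊕ B) where
  toFun h := Equiv.sumCongr (σ h) (τ h)
  map_one' := by
    apply Equiv.ext; rintro (a | b) <;> simp
  map_mul' g h := by
    apply Equiv.ext; rintro (a | b) <;> simp

lemma free_sum {H A B : Type u} [Group H] {σ : H →* Equiv.Perm A} {τ : H →* Equiv.Perm B}
    (hσ : Free σ) (hτ : Free τ) : Free (sumHom σ τ) := by
  rintro h (a | b) hab
  · exact hσ h a (Sum.inl.inj hab)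
  · exact hτ h b (Sum.inr.inj hab)

lemma free_lm {H : Type u} [Group H] (γ : H →* G) (hγ : Function.Injective γ) :
    Free ((lm G).comp γ) := by
  intro h a ha
  have h1 : γ h * a = a := ha
  exact (injective_iff_map_eq_one γ).mp hγ h (mul_eq_right.mp h1)

lemma free_lmX {H : Type u} [Group H] (γ : H →* G) (hγ : Function.Injective γ) :
    Free ((lmX G I).comp γ) := by
  intro h a ha
  have h1 : γ h * a.1 = a.1 := congrArg Prod.fst ha
  exact (injective_iff_map_eq_one γ).mp hγ h (mul_eq_right.mp h1)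

/-- translation -/
def trans (K : Type u) [CommRing K] (Q : Type u) [AddCommGroup Q] [Module K Q] (G I : Type u)
    [Group G] : G →* (((G → Q) × (G × I → Q)) ≃ₗ[K] ((G → Q) × (G × I → Q))) where
  toFun g :=
    { toFun := fun f => (fun x => f.1 (g⁻¹ * x), fun y => f.2 (lmX G I g⁻¹ y))
      map_add' := fun _ _ => rfl
      map_smul' := fun _ _ => rfl
      invFun := fun f => (fun x => f.1 (g * x), fun y => f.2 (lmX G I g y))
      left_inv := fun f => by
        refine Prod.ext ?_ ?_
        · funext x; simp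
        · funext y
          simp only [← Equiv.Perm.mul_apply, ← map_mul, inv_mul_cancel, map_one, Equiv.Perm.one_apply]
      right_inv := fun f => by
        refine Prod.ext ?_ ?_
        · funext x; simp
        · funext y
          simp only [← Equiv.Perm.mul_apply, ← map_mul, mul_inv_cancel, map_one, Equiv.Perm.one_apply] }
  map_one' := by
    apply LinearEquiv.ext
    intro f
    refine Prod.ext ?_ ?_
    · funext x
      change f.1 (1⁻¹ * x) = f.1 x
      simp
    · funext y
      change f.2 (lmX G I 1⁻¹ y) = f.2 y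
      simp
  map_mul' g h := by
    apply LinearEquiv.ext
    intro f
    refine Prod.ext ?_ ?_
    · funext x
      change f.1 ((g * h)⁻¹ * x) = f.1 (h⁻¹ * (g⁻¹ * x))
      simp [mul_assoc]
    · funext y
      change f.2 (lmX G I (g * h)⁻¹ y) = f.2 (lmX G I h⁻¹ (lmX G I g⁻¹ y))
      rw [mul_inv_rev, map_mul, Equiv.Perm.mul_apply]

end Step


lemma trans_symm_apply {Q : Type u} [AddCommGroup Q] [Module K Q] {G I : Type u} [Group G] (g : G)
    (f : (G → Q) × (G × I → Q)) :
    (trans K Q G I g).symm f = (fun x => f.1 (lm G g x), fun y => f.2 (lmX G I g y)) := rfl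

open Cardinal in
/-- The semilinear automorphism extending a partial isomorphism. -/
lemma exists_semilinear {Q : Type u} [AddCommGroup Q] [Module K Q] (hQ : Module.Injective K Q)
    {G I H : Type u} [Group G] [Group H] (hI : ℵ₀ ≤ #I) (hGI : #G < #I) (γ δ : H →* G)
    (hγ : Function.Injective γ) (hδ : Function.Injective δ) (W : Submodule K (G → Q))
    (hW : ∀ w ∈ W, ∀ h, (fun a => w (γ h * a)) ∈ W) (φ : W →ₗ[K] (G → Q))
    (hinj : Function.Injective φ)
    (hφ : ∀ (w : W) (h : H), φ ⟨fun a => w.1 (γ h * a), hW w w.2 h⟩ = fun b => φ w (δ h * b)) :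
    ∃ B : ((G → Q) × (G × I → Q)) ≃ₗ[K] ((G → Q) × (G × I → Q)),
      (∀ f h, B ((trans K Q G I (γ h)).symm f) = (trans K Q G I (δ h)).symm (B f)) ∧
      ∀ w : W, B (w.1, 0) = (φ w, 0) := by
  have hHI : #H < #I := lt_of_le_of_lt (Cardinal.mk_le_of_injective hγ) hGI
  have hX : #(G × I) = #I := by
    rw [Cardinal.mk_prod, Cardinal.lift_id, Cardinal.lift_id]
    exact Cardinal.mul_eq_right hI hGI.le (Cardinal.mk_ne_zero _)
  have hS : #(G ⊕ (G × I)) = #I := by
    rw [Cardinal.mk_sum, Cardinal.lift_id, Cardinal.lift_id, hX]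
    exact Cardinal.add_eq_right hI hGI.le
  obtain ⟨θ, hθ1, hθ2⟩ := swap hQ (free_lm γ hγ) (free_lm δ hδ) W hW φ hinj hφ
  obtain ⟨e₁, he₁⟩ := (free_lmX (I := I) γ hγ).equiv
    (free_sum (free_lm δ hδ) (free_lmX (I := I) γ hγ)) hI hX hS hHI
  obtain ⟨e₂, he₂⟩ := (free_lmX (I := I) δ hδ).equiv
    (free_sum (free_lm γ hγ) (free_lmX (I := I) γ hγ)) hI hX hS hHI
  let B : ((G → Q) × (G × I → Q)) ≃ₗ[K] ((G → Q) × (G × I → Q)) :=
    (LinearEquiv.prodCongr (LinearEquiv.refl K (G → Q))
      ((LinearEquiv.funCongrLeft K Q e₁.symm).trans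
        (LinearEquiv.sumArrowLequivProdArrow G (G × I) K Q))).trans
    ((LinearEquiv.prodAssoc K (G → Q) (G → Q) (G × I → Q)).symm.trans
    ((LinearEquiv.prodCongr θ (LinearEquiv.refl K (G × I → Q))).trans
    ((LinearEquiv.prodAssoc K (G → Q) (G → Q) (G × I → Q)).trans
    (LinearEquiv.prodCongr (LinearEquiv.refl K (G → Q))
      ((LinearEquiv.sumArrowLequivProdArrow G (G × I) K Q).symm.trans
        (LinearEquiv.funCongrLeft K Q e₂))))))
  have hB : ∀ f, B f = ((θ (f.1, fun x => f.2 (e₁.symm (Sum.inl x)))).1,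
      fun y => Sum.elim (θ (f.1, fun x => f.2 (e₁.symm (Sum.inl x)))).2
        (fun y => f.2 (e₁.symm (Sum.inr y))) (e₂ y)) := fun f => rfl
  have he₁' : ∀ h a, e₁.symm (sumHom ((lm G).comp δ) ((lmX G I).comp γ) h a) =
      lmX G I (γ h) (e₁.symm a) := by
    intro h a
    rw [Equiv.symm_apply_eq]
    have := he₁ h (e₁.symm a)
    rw [Equiv.apply_symm_apply] at this
    exact this.symm
  refine ⟨B, ?_, ?_⟩
  · intro f h
    have h1 : (fun x => f.2 (lmX G I (γ h) (e₁.symm (Sum.inl x)))) =
        fun x => f.2 (e₁.symm (Sum.inl (lm G (δ h) x))) := by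
      funext x
      rw [← he₁' h (Sum.inl x)]
      rfl
    have h2 : (fun y => f.2 (lmX G I (γ h) (e₁.symm (Sum.inr y)))) =
        fun y => f.2 (e₁.symm (Sum.inr (lmX G I (γ h) y))) := by
      funext y
      rw [← he₁' h (Sum.inr y)]
      rfl
    have h3 := hθ1 f.1 (fun x => f.2 (e₁.symm (Sum.inl x))) h
    rw [trans_symm_apply, trans_symm_apply, hB, hB]
    simp only
    rw [h1, h2]
    have h4 : θ (fun x => f.1 (lm G (γ h) x), fun x => f.2 (e₁.symm (Sum.inl (lm G (δ h) x)))) =
      (fun b => (θ (f.1, fun x => f.2 (e₁.symm (Sum.inl x)))).1 (lm G (δ h) b),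
        fun a => (θ (f.1, fun x => f.2 (e₁.symm (Sum.inl x)))).2 (lm G (γ h) a)) := h3
    rw [h4]
    refine Prod.ext rfl ?_
    funext y
    have h5 : e₂ (lmX G I (δ h) y) = sumHom ((lm G).comp γ) ((lmX G I).comp γ) h (e₂ y) := he₂ h y
    simp only
    rw [h5]
    cases e₂ y <;> rfl
  · intro w
    rw [hB]
    have h1 : θ (w.1, fun x => (0 : G × I → Q) (e₁.symm (Sum.inl x))) = (φ w, 0) := hθ2 w
    simp only
    rw [h1]
    refine Prod.ext rfl ?_
    funext y
    simp only
    cases e₂ y <;> rfl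

open Cardinal in
/-- One step: every partial isomorphism becomes inner in a larger representation. -/
theorem step (R : Rep K) : ∃ (S : Rep K) (e : R.Embedding S), e.Good := by
  obtain ⟨Q, _, _, i, hQ, hi⟩ := exists_injective K R.V
  let I : Type u := Set (R.G × ULift.{u} ℕ)
  have hGN : #(R.G × ULift.{u} ℕ) < #I := by
    change _ < #(Set (R.G × ULift.{u} ℕ))
    rw [Cardinal.mk_set]
    exact Cardinal.cantor _
  have hI : ℵ₀ ≤ #I := by
    refine le_trans ?_ hGN.le
    rw [Cardinal.aleph0_le_mk_iff]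
    infer_instance
  have hGI : #R.G < #I := by
    refine lt_of_le_of_lt ?_ hGN
    exact Cardinal.mk_le_of_injective (f := fun g => (g, (⟨0⟩ : ULift.{u} ℕ)))
      (fun a b h => congrArg Prod.fst h)
  let S : Rep K :=
    { V := (R.G → Q) × (R.G × I → Q)
      G := (((R.G → Q) × (R.G × I → Q)) ≃ₗ[K] ((R.G → Q) × (R.G × I → Q))) ×
        Equiv.Perm (R.G × I)
      act := fun v g => g.1.symm v
      act_add := fun v w g => g.1.symm.map_add v w
      act_smul := fun k v g => g.1.symm.map_smul k v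
      act_one := fun v => rfl
      act_mul := fun v g h => rfl }
  let j : R.V →ₗ[K] (R.G → Q) :=
    { toFun := fun v x => i (R.act v x)
      map_add' := fun v w => by funext x; simp [R.act_add]
      map_smul' := fun k v => by funext x; simp [R.act_smul] }
  have hj : Function.Injective j := by
    intro v w h
    have h1 : i (R.act v 1) = i (R.act w 1) := congrFun h 1
    rw [R.act_one, R.act_one] at h1
    exact hi h1
  have hjact : ∀ v g, j (R.act v g) = fun x => j v (g * x) := by
    intro v g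
    funext x
    change i (R.act (R.act v g) x) = i (R.act v (g * x))
    rw [R.act_mul]
  let e : R.Embedding S :=
    { α := (LinearMap.inl K (R.G → Q) (R.G × I → Q)).comp j
      β := MonoidHom.prod (trans K Q R.G I) (lmX R.G I)
      α_inj := fun v w h => hj (congrArg Prod.fst h)
      β_inj := fun g h hgh => by
        have h1 : lmX R.G I g = lmX R.G I h := congrArg Prod.snd hgh
        have h2 : (g * 1, (∅ : I)) = (h * 1, (∅ : I)) := congrFun (congrArg DFunLike.coe h1) (1, ∅)
        simpa using congrArg Prod.fst h2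
      compat := fun v g => by
        change (j (R.act v g), (0 : R.G × I → Q)) = (trans K Q R.G I g).symm (j v, 0)
        rw [trans_symm_apply, hjact]
        rfl }
  refine ⟨S, e, ?_⟩
  intro W H hst α β hα hβ hcomp
  let je : W ≃ₗ[K] W.map j := Submodule.equivMapOfInjective j hj W
  have hje : ∀ w : W, (je w : R.G → Q) = j w := fun w => rfl
  let φ : W.map j →ₗ[K] (R.G → Q) := (j.comp α).comp je.symm.toLinearMap
  have hφj : ∀ w : W, φ (je w) = j (α w) := by
    intro w
    change j (α (je.symm (je w))) = j (α w)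
    rw [LinearEquiv.symm_apply_apply]
  have hinj : Function.Injective φ := (hj.comp hα).comp je.symm.injective
  have hstab : ∀ w ∈ W.map j, ∀ h : H, (fun a => w (H.subtype h * a)) ∈ W.map j := by
    intro u hu h
    obtain ⟨w, hw, rfl⟩ := Submodule.mem_map.mp hu
    have := hjact w h
    refine Submodule.mem_map.mpr ⟨R.act w h, hst w hw h h.2, ?_⟩
    rw [this]
    rfl
  have hφ : ∀ (w : W.map j) (h : H), φ ⟨fun a => w.1 (H.subtype h * a), hstab w w.2 h⟩ =
      fun b => φ w (β h * b) := by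
    intro u h
    obtain ⟨w, rfl⟩ := je.surjective u
    have h1 : (⟨fun a => (je w).1 (H.subtype h * a), hstab (je w) (je w).2 h⟩ : W.map j) =
        je ⟨R.act w h, hst w w.2 h h.2⟩ := by
      apply Subtype.ext
      change (fun a => j w (H.subtype h * a)) = j (R.act w h)
      rw [hjact]
      rfl
    rw [h1, hφj, hcomp, hjact, hφj]
  obtain ⟨B, hB1, hB2⟩ := exists_semilinear hQ hI hGI H.subtype β H.subtype_injective hβ
    (W.map j) hstab φ hinj hφ
  have hX : #(R.G × I) = #I := by
    rw [Cardinal.mk_prod, Cardinal.lift_id, Cardinal.lift_id]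
    exact Cardinal.mul_eq_right hI hGI.le (Cardinal.mk_ne_zero _)
  have hHI : #H < #I := lt_of_le_of_lt (Cardinal.mk_le_of_injective H.subtype_injective) hGI
  obtain ⟨P, hP⟩ := (free_lmX (I := I) H.subtype H.subtype_injective).equiv
    (free_lmX (I := I) β hβ) hI hX hX hHI
  refine ⟨(B.symm, P.symm), ?_, ?_⟩
  · intro w
    have h1 : B (j w, 0) = (φ (je w), 0) := hB2 (je w)
    change (j (α w), (0 : R.G × I → Q)) = B (j w, 0)
    rw [h1, hφj]
  · intro h
    refine Prod.ext ?_ ?_
    · apply LinearEquiv.ext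
      intro f
      change trans K Q R.G I (β h) f = B (trans K Q R.G I h (B.symm f))
      have h1 := hB1 (trans K Q R.G I h (B.symm f)) h
      have h2 : (trans K Q R.G I (H.subtype h)).symm (trans K Q R.G I h (B.symm f)) = B.symm f :=
        (trans K Q R.G I h).symm_apply_apply _
      rw [h2, LinearEquiv.apply_symm_apply] at h1
      conv_lhs => rw [h1]
      rw [LinearEquiv.apply_symm_apply]
    · apply Equiv.ext
      intro y
      change lmX R.G I (β h) y = P (lmX R.G I h (P.symm y))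
      have h1 : P (lmX R.G I h (P.symm y)) = lmX R.G I (β h) (P (P.symm y)) := hP h (P.symm y)
      rw [h1, Equiv.apply_symm_apply]


/-! ### The limit of a chain -/

/-- Composition of embeddings. -/
def Rep.Embedding.comp {R S T : Rep K} (g : S.Embedding T) (f : R.Embedding S) : R.Embedding T where
  α := g.α.comp f.α
  β := g.β.comp f.β
  α_inj := g.α_inj.comp f.α_inj
  β_inj := g.β_inj.comp f.β_inj
  compat := fun v x => by
    change g.α (f.α (R.act v x)) = T.act (g.α (f.α v)) (g.β (f.β x))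
    rw [f.compat, g.compat]

/-- The identity embedding. -/
def Rep.Embedding.id (R : Rep K) : R.Embedding R where
  α := LinearMap.id
  β := MonoidHom.id _
  α_inj := fun _ _ h => h
  β_inj := fun _ _ h => h
  compat := fun _ _ => rfl

section Limit

variable (R : ℕ → Rep K) (e : ∀ n, (R n).Embedding (R (n + 1)))

/-- composite embeddings of the chain -/
noncomputable def chain (i j : ℕ) (h : i ≤ j) : (R i).Embedding (R j) :=
  Nat.leRec (motive := fun j _ => (R i).Embedding (R j)) (Rep.Embedding.id (R i))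
    (fun k _ g => (e k).comp g) h

lemma chain_self (i : ℕ) : chain R e i i le_rfl = Rep.Embedding.id (R i) :=
  Nat.leRec_self _ _

lemma chain_succ (i j : ℕ) (h : i ≤ j) (h' : i ≤ j + 1) :
    chain R e i (j + 1) h' = (e j).comp (chain R e i j h) :=
  Nat.leRec_succ _ _ _

lemma chain_trans (i j k : ℕ) (hij : i ≤ j) (hjk : j ≤ k) :
    chain R e i k (hij.trans hjk) = (chain R e j k hjk).comp (chain R e i j hij) := by
  induction k, hjk using Nat.le_induction with
  | base => rw [chain_self]; rfl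
  | succ k hjk ih => rw [chain_succ R e i k (hij.trans hjk), chain_succ R e j k hjk, ih]; rfl

/-- transition maps -/
noncomputable def fV (i j : ℕ) (h : i ≤ j) : (R i).V →ₗ[K] (R j).V := (chain R e i j h).α

/-- transition maps -/
noncomputable def fG (i j : ℕ) (h : i ≤ j) : (R i).G →* (R j).G := (chain R e i j h).β

instance sysV : DirectedSystem (fun n => (R n).V) (fun i j h => fV R e i j h) where
  map_self i x := by
    change (chain R e i i le_rfl).α x = x
    rw [chain_self]; rfl
  map_map k j i hij hjk x := by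
    change (chain R e j k hjk).α ((chain R e i j hij).α x) = (chain R e i k (hij.trans hjk)).α x
    rw [chain_trans R e i j k hij hjk]; rfl

instance sysG : DirectedSystem (fun n => (R n).G) (fun i j h => fG R e i j h) where
  map_self i x := by
    change (chain R e i i le_rfl).β x = x
    rw [chain_self]; rfl
  map_map k j i hij hjk x := by
    change (chain R e j k hjk).β ((chain R e i j hij).β x) = (chain R e i k (hij.trans hjk)).β x
    rw [chain_trans R e i j k hij hjk]; rfl

/-- the underlying module of the limit -/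
abbrev LimV : Type u := DirectLimit (fun n => (R n).V) (fV R e)

/-- the underlying group of the limit -/
abbrev LimG : Type u := DirectLimit (fun n => (R n).G) (fG R e)

/-- class of an element -/
noncomputable def mkV (n : ℕ) (v : (R n).V) : LimV R e := ⟦⟨n, v⟩⟧

/-- class of an element -/
noncomputable def mkG (n : ℕ) (g : (R n).G) : LimG R e := ⟦⟨n, g⟩⟧

/-- the action on the limit -/
noncomputable def limAct : LimV R e → LimG R e → LimV R e :=
  DirectLimit.map₂ (fV R e) (fG R e) (fV R e) (fun i v g => (R i).act v g)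
    (fun i j h v g => (chain R e i j h).compat v g)

lemma limAct_mk (i : ℕ) (v : (R i).V) (g : (R i).G) :
    limAct R e (mkV R e i v) (mkG R e i g) = mkV R e i ((R i).act v g) :=
  DirectLimit.map₂_def (fV R e) (fG R e) (fV R e) (fun i v g => (R i).act v g)
    (fun i j h v g => (chain R e i j h).compat v g) i v g

lemma mkV_map (i j : ℕ) (h : i ≤ j) (v : (R i).V) : mkV R e i v = mkV R e j (fV R e i j h v) :=
  DirectLimit.eq_of_le (F := fun n => (R n).V) (f := fV R e) ⟨i, v⟩ j h

lemma mkG_map (i j : ℕ) (h : i ≤ j) (v : (R i).G) : mkG R e i v = mkG R e j (fG R e i j h v) :=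
  DirectLimit.eq_of_le (F := fun n => (R n).G) (f := fG R e) ⟨i, v⟩ j h

lemma mkV_add (i : ℕ) (v w : (R i).V) : mkV R e i v + mkV R e i w = mkV R e i (v + w) :=
  DirectLimit.add_def (G := fun n => (R n).V) (f := fV R e) i v w

lemma mkV_smul (i : ℕ) (k : K) (v : (R i).V) : k • mkV R e i v = mkV R e i (k • v) :=
  DirectLimit.smul_def (G := fun n => (R n).V) (f := fV R e) i v k

lemma mkG_mul (i : ℕ) (v w : (R i).G) : mkG R e i v * mkG R e i w = mkG R e i (v * w) :=
  DirectLimit.mul_def (G := fun n => (R n).G) (f := fG R e) i v w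

lemma mkG_one (i : ℕ) : (1 : LimG R e) = mkG R e i 1 :=
  DirectLimit.one_def (G := fun n => (R n).G) (f := fG R e) i

lemma rep_V (z : LimV R e) : ∃ n, ∃ v : (R n).V, z = mkV R e n v :=
  DirectLimit.exists_eq_mk (fV R e) z

lemma rep_G (z : LimG R e) : ∃ n, ∃ v : (R n).G, z = mkG R e n v :=
  DirectLimit.exists_eq_mk (fG R e) z

lemma rep_V_mono (z : LimV R e) {n m : ℕ} (h : n ≤ m) (hz : ∃ v : (R n).V, z = mkV R e n v) :
    ∃ v : (R m).V, z = mkV R e m v := by
  obtain ⟨v, rfl⟩ := hz
  exact ⟨_, mkV_map R e n m h v⟩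

lemma rep_G_mono (z : LimG R e) {n m : ℕ} (h : n ≤ m) (hz : ∃ v : (R n).G, z = mkG R e n v) :
    ∃ v : (R m).G, z = mkG R e m v := by
  obtain ⟨v, rfl⟩ := hz
  exact ⟨_, mkG_map R e n m h v⟩

/-- the limit representation -/
noncomputable def lim : Rep K where
  V := LimV R e
  G := LimG R e
  act := limAct R e
  act_add := fun v w g => by
    obtain ⟨n, hn⟩ := rep_V R e v
    obtain ⟨m, hm⟩ := rep_V R e w
    obtain ⟨l, hl⟩ := rep_G R e g
    obtain ⟨v', rfl⟩ := rep_V_mono R e v (le_max_left n (max m l)) hn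
    obtain ⟨w', rfl⟩ := rep_V_mono R e w ((le_max_left m l).trans (le_max_right n (max m l))) hm
    obtain ⟨g', rfl⟩ := rep_G_mono R e g ((le_max_right m l).trans (le_max_right n (max m l))) hl
    rw [mkV_add, limAct_mk, limAct_mk, limAct_mk, mkV_add, (R _).act_add]
  act_smul := fun k v g => by
    obtain ⟨n, hn⟩ := rep_V R e v
    obtain ⟨l, hl⟩ := rep_G R e g
    obtain ⟨v', rfl⟩ := rep_V_mono R e v (le_max_left n l) hn
    obtain ⟨g', rfl⟩ := rep_G_mono R e g (le_max_right n l) hl
    rw [mkV_smul, limAct_mk, limAct_mk, mkV_smul, (R _).act_smul]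
  act_one := fun v => by
    obtain ⟨n, v', rfl⟩ := rep_V R e v
    rw [mkG_one R e n, limAct_mk, (R _).act_one]
  act_mul := fun v g h => by
    obtain ⟨n, hn⟩ := rep_V R e v
    obtain ⟨m, hm⟩ := rep_G R e g
    obtain ⟨l, hl⟩ := rep_G R e h
    obtain ⟨v', rfl⟩ := rep_V_mono R e v (le_max_left n (max m l)) hn
    obtain ⟨g', rfl⟩ := rep_G_mono R e g ((le_max_left m l).trans (le_max_right n (max m l))) hm
    obtain ⟨h', rfl⟩ := rep_G_mono R e h ((le_max_right m l).trans (le_max_right n (max m l))) hl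
    rw [mkG_mul, limAct_mk, limAct_mk, limAct_mk, (R _).act_mul]

/-- the embedding of a stage in the limit -/
noncomputable def toLim (n : ℕ) : (R n).Embedding (lim R e) where
  α :=
    { toFun := fun v => mkV R e n v
      map_add' := fun v w => (mkV_add R e n v w).symm
      map_smul' := fun k v => (mkV_smul R e n k v).symm }
  β :=
    { toFun := fun g => mkG R e n g
      map_one' := (mkG_one R e n).symm
      map_mul' := fun g h => (mkG_mul R e n g h).symm }
  α_inj := DirectLimit.mk_injective (fV R e) (fun i j h => (chain R e i j h).α_inj) n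
  β_inj := DirectLimit.mk_injective (fG R e) (fun i j h => (chain R e i j h).β_inj) n
  compat := fun v g => (limAct_mk R e n v g).symm

lemma toLim_α_succ (n : ℕ) (v : (R n).V) : (toLim R e (n + 1)).α ((e n).α v) = (toLim R e n).α v := by
  have h := mkV_map R e n (n + 1) (Nat.le_succ n) v
  have h2 : fV R e n (n + 1) (Nat.le_succ n) v = (e n).α v := by
    change (chain R e n (n + 1) (Nat.le_succ n)).α v = (e n).α v
    rw [chain_succ R e n n le_rfl, chain_self]; rfl
  rw [h2] at h
  exact h.symm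

lemma toLim_β_succ (n : ℕ) (v : (R n).G) : (toLim R e (n + 1)).β ((e n).β v) = (toLim R e n).β v := by
  have h := mkG_map R e n (n + 1) (Nat.le_succ n) v
  have h2 : fG R e n (n + 1) (Nat.le_succ n) v = (e n).β v := by
    change (chain R e n (n + 1) (Nat.le_succ n)).β v = (e n).β v
    rw [chain_succ R e n n le_rfl, chain_self]; rfl
  rw [h2] at h
  exact h.symm

end Limit


/-- A bundled isomorphism between two subrepresentations of `R`. -/
structure Subrep.Iso {R : Rep K} (S T : Subrep R) where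
  α : S.W ≃ₗ[K] T.W
  β : S.H ≃* T.H
  compat : ∀ (w : S.W) (h : S.H),
    (α ⟨R.act w h, S.stable w w.2 h h.2⟩ : R.V) = R.act (α w) (β h)

lemma IsIso.exists_iso {R : Rep K} {S T : Subrep R} {α : R.V → R.V} {β : R.G → R.G}
    (h : IsIso S T α β) : ∃ φ : S.Iso T, (∀ w : S.W, (φ.α w : R.V) = α w) ∧
      ∀ g : S.H, (φ.β g : R.G) = β g := by
  let a : S.W →ₗ[K] T.W :=
    { toFun := fun w => ⟨α w, h.bij_left.mapsTo w.2⟩
      map_add' := fun v w => Subtype.ext (h.map_add v v.2 w w.2)
      map_smul' := fun k v => Subtype.ext (h.map_smul k v v.2) }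
  let b : S.H →* T.H :=
    MonoidHom.mk' (fun g => ⟨β g, h.bij_right.mapsTo g.2⟩)
      (fun v w => Subtype.ext (h.map_mul v v.2 w w.2))
  have ha : Function.Bijective a := by
    constructor
    · intro v w hvw
      exact Subtype.ext (h.bij_left.injOn v.2 w.2 (congrArg Subtype.val hvw))
    · intro w
      obtain ⟨v, hv, hvw⟩ := h.bij_left.surjOn w.2
      exact ⟨⟨v, hv⟩, Subtype.ext hvw⟩
  have hb : Function.Bijective b := by
    constructor
    · intro v w hvw
      exact Subtype.ext (h.bij_right.injOn v.2 w.2 (congrArg Subtype.val hvw))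
    · intro w
      obtain ⟨v, hv, hvw⟩ := h.bij_right.surjOn w.2
      exact ⟨⟨v, hv⟩, Subtype.ext hvw⟩
  exact ⟨⟨LinearEquiv.ofBijective a ha, MulEquiv.ofBijective b hb,
    fun w g => h.map_act w w.2 g g.2⟩, fun w => rfl, fun g => rfl⟩

/-- inner automorphisms -/
def Rep.inner (R : Rep K) (g : R.G) : R.Aut where
  α :=
    { toFun := fun v => R.act v g
      invFun := fun v => R.act v g⁻¹
      map_add' := fun v w => R.act_add v w g
      map_smul' := fun k v => R.act_smul k v g
      left_inv := fun v => by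
        change R.act (R.act v g) g⁻¹ = v
        rw [← R.act_mul, mul_inv_cancel, R.act_one]
      right_inv := fun v => by
        change R.act (R.act v g⁻¹) g = v
        rw [← R.act_mul, inv_mul_cancel, R.act_one] }
  β := MulAut.conj g⁻¹
  compat := fun v x => by
    change R.act (R.act v x) g = R.act (R.act v g) (g⁻¹ * x * g⁻¹⁻¹)
    rw [inv_inv, ← R.act_mul, ← R.act_mul, mul_assoc, mul_inv_cancel_left]

theorem homogeneous_of_chain (L : Rep K) (R : ℕ → Rep K) (e : ∀ n, (R n).Embedding (R (n + 1)))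
    (he : ∀ n, (e n).Good) (ι : ∀ n, (R n).Embedding L)
    (hα : ∀ n v, (ι (n + 1)).α ((e n).α v) = (ι n).α v)
    (hβ : ∀ n g, (ι (n + 1)).β ((e n).β g) = (ι n).β g)
    (hVs₀ : ∀ v : L.V, ∃ n w, (ι n).α w = v)
    (hGs₀ : ∀ g : L.G, ∃ n x, (ι n).β x = g) : L.Homogeneous := by
  have hVs : ∀ v : L.V, ∃ n, v ∈ LinearMap.range (ι n).α := by
    intro v
    obtain ⟨n, w, hw⟩ := hVs₀ v
    exact ⟨n, LinearMap.mem_range.mpr ⟨w, hw⟩⟩
  have hGs : ∀ g : L.G, ∃ n, g ∈ (ι n).β.range := by
    intro v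
    obtain ⟨n, w, hw⟩ := hGs₀ v
    exact ⟨n, MonoidHom.mem_range.mpr ⟨w, hw⟩⟩
  have hVm1 : ∀ n, LinearMap.range (ι n).α ≤ LinearMap.range (ι (n + 1)).α := by
    intro n v hv
    obtain ⟨w, rfl⟩ := LinearMap.mem_range.mp hv
    rw [← hα]
    exact LinearMap.mem_range_self _ _
  have hGm1 : ∀ n, (ι n).β.range ≤ (ι (n + 1)).β.range := by
    intro n v hv
    obtain ⟨w, rfl⟩ := MonoidHom.mem_range.mp hv
    rw [← hβ]
    exact MonoidHom.mem_range.mpr ⟨_, rfl⟩
  have hVm : Monotone (fun n => LinearMap.range (ι n).α) := monotone_nat_of_le_succ hVm1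
  have hGm : Monotone (fun n => (ι n).β.range) := monotone_nat_of_le_succ hGm1
  intro S T hS _ α₀ β₀ hiso
  obtain ⟨φ, hφα, hφβ⟩ := hiso.exists_iso
  suffices hmain : ∃ ψ : L.Aut, (∀ w : S.W, ψ.α w = φ.α w) ∧ ∀ h : S.H, ψ.β h = φ.β h by
    obtain ⟨ψ, h1, h2⟩ := hmain
    exact ⟨ψ, fun w hw => (h1 ⟨w, hw⟩).trans (hφα ⟨w, hw⟩),
      fun g hg => (h2 ⟨g, hg⟩).trans (hφβ ⟨g, hg⟩)⟩
  obtain ⟨⟨F, hF⟩, ⟨E, hE⟩⟩ := hS
  -- a stage containing all the generators and their images
  have hE' : ∀ t ∈ E, t ∈ S.W := by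
    intro t ht
    rw [← hE]
    exact Submodule.subset_span ⟨t, ht, 1, S.H.one_mem, (L.act_one t).symm⟩
  have hF' : ∀ t ∈ F, t ∈ S.H := by
    intro t ht
    rw [← hF]
    exact Subgroup.subset_closure ht
  have hstage : ∃ n, (∀ t (ht : t ∈ E), t ∈ LinearMap.range (ι n).α ∧
      (φ.α ⟨t, hE' t ht⟩ : L.V) ∈ LinearMap.range (ι n).α) ∧
      (∀ t (ht : t ∈ F), t ∈ (ι n).β.range ∧ (φ.β ⟨t, hF' t ht⟩ : L.G) ∈ (ι n).β.range) := by
    choose nV hnV using hVs
    choose nG hnG using hGs
    refine ⟨(E.attach.sup (fun t => max (nV t.1) (nV (φ.α ⟨t.1, hE' t.1 t.2⟩ : L.V)))) ⊔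
      (F.attach.sup (fun t => max (nG t.1) (nG (φ.β ⟨t.1, hF' t.1 t.2⟩ : L.G)))), ?_, ?_⟩
    · intro t ht
      have h1 := Finset.le_sup (f := fun t : E =>
        max (nV t.1) (nV (φ.α ⟨t.1, hE' t.1 t.2⟩ : L.V))) (Finset.mem_attach E ⟨t, ht⟩)
      constructor
      · exact hVm ((le_max_left _ _).trans (h1.trans le_sup_left)) (hnV _)
      · exact hVm ((le_max_right _ _).trans (h1.trans le_sup_left)) (hnV _)
    · intro t ht
      have h1 := Finset.le_sup (f := fun t : F =>
        max (nG t.1) (nG (φ.β ⟨t.1, hF' t.1 t.2⟩ : L.G))) (Finset.mem_attach F ⟨t, ht⟩)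
      constructor
      · exact hGm ((le_max_left _ _).trans (h1.trans le_sup_right)) (hnG _)
      · exact hGm ((le_max_right _ _).trans (h1.trans le_sup_right)) (hnG _)
  obtain ⟨n, hnE, hnF⟩ := hstage
  -- the whole of `S` and its image come from stage `n`
  have hHn : ∀ h : S.H, (h : L.G) ∈ (ι n).β.range ∧ (φ.β h : L.G) ∈ (ι n).β.range := by
    let M : Subgroup S.H := ((ι n).β.range.comap S.H.subtype) ⊓
      ((ι n).β.range.comap (T.H.subtype.comp φ.β.toMonoidHom))
    have hM : S.H ≤ M.map S.H.subtype := by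
      conv_lhs => rw [← hF]
      rw [Subgroup.closure_le]
      intro t ht
      refine Subgroup.mem_map.mpr ⟨⟨t, hF' t ht⟩, ?_, rfl⟩
      exact ⟨(hnF t ht).1, (hnF t ht).2⟩
    intro h
    obtain ⟨h', hh', hh''⟩ := Subgroup.mem_map.mp (hM h.2)
    have : h' = h := Subtype.ext hh''
    rw [this] at hh'
    exact ⟨hh'.1, hh'.2⟩
  have hWn : ∀ w : S.W, (w : L.V) ∈ LinearMap.range (ι n).α ∧
      (φ.α w : L.V) ∈ LinearMap.range (ι n).α := by
    let M : Submodule K S.W := ((LinearMap.range (ι n).α).comap S.W.subtype) ⊓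
      ((LinearMap.range (ι n).α).comap (T.W.subtype.comp φ.α.toLinearMap))
    have hM : S.W ≤ M.map S.W.subtype := by
      conv_lhs => rw [← hE]
      rw [Submodule.span_le]
      rintro _ ⟨t, ht, h, hh, rfl⟩
      have hact : L.act t h ∈ S.W := S.stable t (hE' t ht) h hh
      refine Submodule.mem_map.mpr ⟨⟨L.act t h, hact⟩, ⟨?_, ?_⟩, rfl⟩
      · obtain ⟨v, hv⟩ := LinearMap.mem_range.mp (hnE t ht).1
        obtain ⟨g, hg⟩ := MonoidHom.mem_range.mp (hHn ⟨h, hh⟩).1
        change L.act t h ∈ LinearMap.range (ι n).α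
        have hg' : (ι n).β g = h := hg
        rw [← hv, ← hg', ← (ι n).compat]
        exact LinearMap.mem_range_self _ _
      · change (φ.α ⟨L.act t h, hact⟩ : L.V) ∈ LinearMap.range (ι n).α
        have h1 := φ.compat ⟨t, hE' t ht⟩ ⟨h, hh⟩
        obtain ⟨v, hv⟩ := LinearMap.mem_range.mp (hnE t ht).2
        obtain ⟨g, hg⟩ := MonoidHom.mem_range.mp (hHn ⟨h, hh⟩).2
        have h2 : (φ.α ⟨L.act t h, hact⟩ : L.V) = L.act (φ.α ⟨t, hE' t ht⟩) (φ.β ⟨h, hh⟩) := h1
        rw [h2, ← hv, ← hg, ← (ι n).compat]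
        exact LinearMap.mem_range_self _ _
    intro h
    obtain ⟨h', hh', hh''⟩ := Submodule.mem_map.mp (hM h.2)
    have : h' = h := Subtype.ext hh''
    rw [this] at hh'
    exact ⟨hh'.1, hh'.2⟩
  -- pull the isomorphism back to stage `n`
  let W' : Submodule K (R n).V := S.W.comap (ι n).α
  let H' : Subgroup (R n).G := S.H.comap (ι n).β
  have hex1 : ∀ w : W', ∃ v : (R n).V, (ι n).α v = φ.α ⟨(ι n).α w, w.2⟩ :=
    fun w => LinearMap.mem_range.mp (hWn ⟨(ι n).α w, w.2⟩).2
  have hex2 : ∀ h : H', ∃ g : (R n).G, (ι n).β g = φ.β ⟨(ι n).β h, h.2⟩ :=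
    fun h => MonoidHom.mem_range.mp (hHn ⟨(ι n).β h, h.2⟩).2
  choose a ha using hex1
  choose b hb using hex2
  let α' : W' →ₗ[K] (R n).V :=
    { toFun := a
      map_add' := fun v w => by
        apply (ι n).α_inj
        rw [map_add, ha, ha, ha, ← Submodule.coe_add, ← map_add]
        congr 2
        apply Subtype.ext
        simp
      map_smul' := fun k v => by
        apply (ι n).α_inj
        rw [map_smul, ha, ha, RingHom.id_apply, ← Submodule.coe_smul, ← map_smul]
        congr 2
        apply Subtype.ext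
        simp }
  let β' : H' →* (R n).G :=
    MonoidHom.mk' b (fun v w => by
        apply (ι n).β_inj
        rw [map_mul, hb, hb, hb, ← Subgroup.coe_mul, ← map_mul]
        congr 2
        apply Subtype.ext
        simp)
  have hα' : Function.Injective α' := by
    intro v w hvw
    have h1 : (ι n).α (a v) = (ι n).α (a w) := congrArg (ι n).α hvw
    rw [ha, ha] at h1
    have h2 := φ.α.injective (Subtype.ext h1)
    have h3 : (ι n).α v = (ι n).α w := congrArg Subtype.val h2
    exact Subtype.ext ((ι n).α_inj h3)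
  have hβ' : Function.Injective β' := by
    intro v w hvw
    have h1 : (ι n).β (b v) = (ι n).β (b w) := congrArg (ι n).β hvw
    rw [hb, hb] at h1
    have h2 := φ.β.injective (Subtype.ext h1)
    have h3 : (ι n).β v = (ι n).β w := congrArg Subtype.val h2
    exact Subtype.ext ((ι n).β_inj h3)
  have hst : ∀ w ∈ W', ∀ h ∈ H', (R n).act w h ∈ W' := by
    intro w hw h hh
    change (ι n).α ((R n).act w h) ∈ S.W
    rw [(ι n).compat]
    exact S.stable _ hw _ hh
  have hcomp : ∀ (w : W') (h : H'),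
      α' ⟨(R n).act w h, hst w w.2 h h.2⟩ = (R n).act (α' w) (β' h) := by
    intro w h
    apply (ι n).α_inj
    have hmem : L.act ((ι n).α w) ((ι n).β h) ∈ S.W := S.stable _ w.2 _ h.2
    have h1 : (⟨(ι n).α ((R n).act w h), hst w w.2 h h.2⟩ : S.W) =
        ⟨L.act ((ι n).α w) ((ι n).β h), hmem⟩ := Subtype.ext ((ι n).compat w h)
    calc (ι n).α (a ⟨(R n).act w h, hst w w.2 h h.2⟩)
        = φ.α ⟨(ι n).α ((R n).act w h), hst w w.2 h h.2⟩ := ha _
      _ = φ.α ⟨L.act ((ι n).α w) ((ι n).β h), hmem⟩ := by rw [h1]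
      _ = L.act (φ.α ⟨(ι n).α w, w.2⟩) (φ.β ⟨(ι n).β h, h.2⟩) :=
        φ.compat ⟨(ι n).α w, w.2⟩ ⟨(ι n).β h, h.2⟩
      _ = L.act ((ι n).α (a w)) ((ι n).β (b h)) := by rw [ha, hb]
      _ = (ι n).α ((R n).act (a w) (b h)) := ((ι n).compat _ _).symm
  obtain ⟨g, hg1, hg2⟩ := he n W' H' hst α' β' hα' hβ' hcomp
  refine ⟨L.inner ((ι (n + 1)).β g), ?_, ?_⟩
  · intro w
    obtain ⟨v, hv⟩ := LinearMap.mem_range.mp (hWn w).1
    have hvW : v ∈ W' := by
      change (ι n).α v ∈ S.W
      rw [hv]; exact w.2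
    have h1 := hg1 ⟨v, hvW⟩
    change L.act w ((ι (n + 1)).β g) = φ.α w
    have h2 := ha ⟨v, hvW⟩
    have h3 : (⟨(ι n).α v, hvW⟩ : S.W) = w := Subtype.ext hv
    simp only at h2
    rw [h3] at h2
    rw [← h2, ← hv, ← hα n v, ← (ι (n + 1)).compat, ← hα n (a ⟨v, hvW⟩)]
    exact congrArg _ h1.symm
  · intro h
    obtain ⟨x, hx⟩ := MonoidHom.mem_range.mp (hHn h).1
    have hxH : x ∈ H' := by
      change (ι n).β x ∈ S.H
      rw [hx]; exact h.2
    have h1 := hg2 ⟨x, hxH⟩
    change ((ι (n + 1)).β g)⁻¹ * h * ((ι (n + 1)).β g)⁻¹⁻¹ = φ.β h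
    have h2 := hb ⟨x, hxH⟩
    have h3 : (⟨(ι n).β x, hxH⟩ : S.H) = h := Subtype.ext hx
    simp only at h2
    rw [h3] at h2
    rw [inv_inv, ← h2, ← hx, ← hβ n x, ← hβ n (b ⟨x, hxH⟩), ← map_inv, ← map_mul, ← map_mul]
    exact congrArg _ h1.symm

/-- Every representation over every commutative ring embeds in a homogeneous representation. -/
theorem result (K : Type u) [CommRing K] (R : Rep K) :
    ∃ L : Rep K, L.Homogeneous ∧ Nonempty (R.Embedding L) := by
  choose nxt emb hgood using (step (K := K))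
  let C : ℕ → Rep K := fun n => Nat.rec R (fun _ S => nxt S) n
  let e : ∀ n, (C n).Embedding (C (n + 1)) := fun n => emb (C n)
  have he : ∀ n, (e n).Good := fun n => hgood (C n)
  refine ⟨lim C e, ?_, ⟨toLim C e 0⟩⟩
  apply homogeneous_of_chain (lim C e) C e he (toLim C e) (toLim_α_succ C e) (toLim_β_succ C e)
  · intro v
    obtain ⟨n, w, hw⟩ := rep_V C e v
    exact ⟨n, w, hw.symm⟩
  · intro g
    obtain ⟨n, w, hw⟩ := rep_G C e g
    exact ⟨n, w, hw.symm⟩

end Pool.Agent.Results.MP_f6eb76_al.HomogeneousEmbedding
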